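import Pool.Agent.P.MP_2862dc_ag.All

open MvPolynomial CenLoc

/-- For a generic logarithmic foliation and each of its centers, the Zariski tangent space of the
center locus is the space of deformations with vanishing first Melnikov function. -/
theorem Pool.Agent.Results.MP_2862dc_ag.LogTangent.result (d s : ℕ) (dd : Fin s → ℕ)
    (hd : 2 ≤ d) (hs : 2 ≤ s) (h1 : ∀ i, 1 ≤ dd i) (hsum : ∑ i, dd i = d + 1) :
    ∃ Φ : MvPolynomial (Fin 2 × Mon d) ℂ,
      logLocus d dd ⊆ closure (logLocus d dd ∩ {ω | eval ω Φ ≠ 0}) ∧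
      (∃ ω ∈ logLocus d dd, eval ω Φ ≠ 0 ∧ ∃ p, IsCenter (form ω) p) ∧
      ∀ ω ∈ logLocus d dd, eval ω Φ ≠ 0 → ∀ p, IsCenter (form ω) p →
        Nonempty (Chart (form ω) p) ∧
        ∀ c : Chart (form ω) p, tangent (centerLocus d) ω = c.Tstar d :=
  all_MAIN d s dd hd hs h1 hsum
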